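import Pool.Agent.V11178.Signed
import Pool.Agent.V11178.Search73

/-!
# `τ±(ℤ_n, [1, 4])` is not monotone along odd `n`

`τ±(ℤ_1, [1, 4]) = 0`, `τ±(ℤ_69, [1, 4]) ≥ 5` and `τ±(ℤ_73, [1, 4]) ≤ 4`.
-/

namespace Pool.Agent.Results.MP_3bc6ef_co.NotMonotone

open Pool.Agent.V11178 Pool.Agent.V11178.Search73

theorem one : tauPM (ZMod 1) 4 = 0 := by
  have : tauPM (ZMod 1) 4 ≤ 0 := by
    apply tauPM_le_of_card
    intro A hA
    obtain ⟨a, rfl⟩ := Finset.card_eq_one.mp hA
    rw [tIndep_iff]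
    push Not
    refine ⟨fun _ => 1, by simp, by simp, ?_⟩
    exact Subsingleton.elim _ _
  omega

instance : Fact (Nat.Prime 73) := ⟨by norm_num⟩

theorem dep_single {A : Finset (ZMod 73)} (h0 : (0 : ZMod 73) ∈ A) : ¬ TIndep 4 A := by
  rw [tIndep_iff]
  push Not
  refine ⟨fun g => if g = 0 then 1 else 0, ?_, ?_, ?_⟩
  · have : ∑ a ∈ A, (if a = (0 : ZMod 73) then (1 : ℤ) else 0).natAbs = 1 := by
      rw [Finset.sum_eq_single_of_mem 0 h0]
      · simp
      · intro b _ hb
        simp [hb]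
    rw [this]
  · have : ∑ a ∈ A, (if a = (0 : ZMod 73) then (1 : ℤ) else 0).natAbs = 1 := by
      rw [Finset.sum_eq_single_of_mem 0 h0]
      · simp
      · intro b _ hb
        simp [hb]
    rw [this]
    norm_num
  · apply Finset.sum_eq_zero
    intro a _
    by_cases h : a = 0
    · simp [h]
    · simp [h]

theorem dep_pair {A : Finset (ZMod 73)} {x y : ZMod 73} (hx : x ∈ A) (hy : y ∈ A) (hxy : x ≠ y)
    (hs : x + y = 0) : ¬ TIndep 4 A := by
  intro h
  have hsub : ({x, y} : Finset (ZMod 73)) ⊆ A := by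
    intro z hz
    simp only [Finset.mem_insert, Finset.mem_singleton] at hz
    rcases hz with rfl | rfl <;> assumption
  have := h.subset hsub
  rw [tIndep_iff] at this
  refine this (fun _ => 1) ?_ ?_ ?_
  · rw [Finset.sum_pair hxy]; norm_num
  · rw [Finset.sum_pair hxy]; norm_num
  · rw [Finset.sum_pair hxy, one_smul, one_smul, hs]

theorem good_rot (l : ℤ) (s w : ℕ) (hs : s < 73) (hsl : (s : ZMod 73) = l • ((1 : ℕ) : ZMod 73))
    (hw : l.natAbs ≤ w) : Good {1} w (rot 1 s) := by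
  have := (good_zero ∅).rot (b := 1) (by simp) l s hs hsl w (by simpa using hw)
  simpa only [Nat.cast_one, insert_empty_eq] using this

theorem good_one (w : ℕ) : Good {1} w 1 := by
  have := (good_zero ∅).mono (w' := w) (Nat.zero_le w) (b := 1) (by simp)
  simpa only [insert_empty_eq] using this

theorem seventythree : tauPM (ZMod 73) 4 ≤ 4 := by
  apply tauPM_le_of_card
  intro A hA hind
  have hne : A.Nonempty := by
    rw [← Finset.card_pos]; omega
  obtain ⟨a, ha⟩ := hne
  have ha0 : a ≠ 0 := by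
    rintro rfl
    exact dep_single ha hind
  obtain ⟨u, hu⟩ : ∃ u : ZMod 73, u = a⁻¹ := ⟨_, rfl⟩
  have hua : u * a = 1 := by rw [hu]; exact inv_mul_cancel₀ ha0
  have hu0 : u ≠ 0 := by rw [hu]; exact inv_ne_zero ha0
  obtain ⟨f, hf⟩ : ∃ f : ZMod 73 → ℕ, ∀ x, f x = if (u * x).val ≤ 36 then (u * x).val
      else 73 - (u * x).val := ⟨_, fun _ => rfl⟩
  have hf36 : ∀ x, f x ≤ 36 := by
    intro x
    rw [hf]
    have := ZMod.val_lt (u * x)
    split_ifs <;> omega
  have hfc : ∀ x, ((f x : ℕ) : ZMod 73) = u * x ∨ ((f x : ℕ) : ZMod 73) = -(u * x) := by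
    intro x
    rw [hf]
    split_ifs
    · left
      exact ZMod.natCast_zmod_val _
    · right
      rw [cast_neg73 _ (ZMod.val_lt _).le, ZMod.natCast_zmod_val]
  have hinj : ∀ x ∈ A, ∀ y ∈ A, ((f x : ℕ) : ZMod 73) = ((f y : ℕ) : ZMod 73) → x = y := by
    intro x hx y hy hxy
    by_contra hne
    have hneg : x + y ≠ 0 := fun h => dep_pair hx hy hne h hind
    have hs1 : u * x ≠ u * y := fun h => hne (mul_left_cancel₀ hu0 h)
    have hs2 : u * x + u * y ≠ 0 := by
      rw [← mul_add]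
      exact mul_ne_zero hu0 hneg
    rcases hfc x with h1 | h1 <;> rcases hfc y with h2 | h2 <;> rw [h1, h2] at hxy
    · exact hs1 hxy
    · exact hs2 (by rw [hxy]; ring)
    · exact hs2 (by rw [← hxy]; ring)
    · exact hs1 (neg_injective hxy)
  have hinj' : Set.InjOn (fun x => ((f x : ℕ) : ZMod 73)) (A : Set (ZMod 73)) :=
    fun x hx y hy h => hinj x hx y hy h
  -- the image is independent
  have hB : TIndep 4 (A.image (fun x => ((f x : ℕ) : ZMod 73))) := by
    rw [tIndep_iff] at hind ⊢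
    intro c h1 h2 h3
    rw [Finset.sum_image hinj'] at h1 h2 h3
    obtain ⟨e, he⟩ : ∃ e : ZMod 73 → ℤ, ∀ x, (e x).natAbs = 1 ∧
        ((f x : ℕ) : ZMod 73) = u * (e x • x) := by
      have : ∀ x : ZMod 73, ∃ t : ℤ, t.natAbs = 1 ∧ ((f x : ℕ) : ZMod 73) = u * (t • x) := by
        intro x
        rcases hfc x with h | h
        · exact ⟨1, rfl, by rw [one_smul]; exact h⟩
        · exact ⟨-1, rfl, by rw [neg_smul, one_smul, h]; ring⟩
      choose e he using this
      exact ⟨e, he⟩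
    have h4 : ∑ x ∈ A, (c ((f x : ℕ) : ZMod 73) * e x).natAbs =
        ∑ x ∈ A, (c ((f x : ℕ) : ZMod 73)).natAbs := by
      apply Finset.sum_congr rfl
      intro x _
      rw [Int.natAbs_mul, (he x).1, mul_one]
    have h5 : u * ∑ x ∈ A, (c ((f x : ℕ) : ZMod 73) * e x) • x =
        ∑ x ∈ A, c ((f x : ℕ) : ZMod 73) • ((f x : ℕ) : ZMod 73) := by
      rw [Finset.mul_sum]
      apply Finset.sum_congr rfl
      intro x _
      rw [mul_smul, mul_smul_comm, ← (he x).2]
    have h6 : ∑ x ∈ A, (c ((f x : ℕ) : ZMod 73) * e x) • x ≠ 0 :=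
      hind (fun x => c ((f x : ℕ) : ZMod 73) * e x) (by rw [h4]; exact h1) (by rw [h4]; exact h2)
    rw [h3] at h5
    exact (mul_ne_zero hu0 h6) h5
  -- the set of naturals
  have hT : ((A.image f).card) = 5 := by
    rw [Finset.card_image_of_injOn, hA]
    intro x hx y hy h
    exact hinj x hx y hy (by rw [show f x = f y from h])
  have h1T : 1 ∈ A.image f := by
    rw [Finset.mem_image]
    refine ⟨a, ha, ?_⟩
    rw [hf, hua]
    decide
  have h0T : 0 ∉ A.image f := by
    intro h0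
    apply dep_single _ hB
    rw [Finset.mem_image] at h0 ⊢
    obtain ⟨x, hx, hx0⟩ := h0
    exact ⟨x, hx, by rw [hx0]; rfl⟩
  have hmain := noExt_sound (List.range' 2 35) (by
      intro x hx
      rw [List.mem_range'_1] at hx
      omega) 4 {1} _ _ _ search ?_ ?_ ?_ ((A.image f).erase 1) ?_ ?_ ?_
  · apply hmain
    have hU : ({1} : Finset (ZMod 73)) ∪ ((A.image f).erase 1).image
        (fun x : ℕ => (x : ZMod 73)) = A.image (fun x => ((f x : ℕ) : ZMod 73)) := by
      have e1 : ({1} : Finset (ZMod 73)) = ({1} : Finset ℕ).image (fun x : ℕ => (x : ZMod 73)) := by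
        simp
      rw [e1, ← Finset.image_union]
      have e2 : ({1} : Finset ℕ) ∪ (A.image f).erase 1 = A.image f := by
        rw [← Finset.insert_eq, Finset.insert_erase h1T]
      rw [e2, Finset.image_image]
      rfl
    rw [hU]
    exact hB
  · exact ((good_rot 1 1 1 (by norm_num) (by decide) (by norm_num)).or
      (good_rot (-1) 72 1 (by norm_num) (by decide) (by norm_num))).or (good_one 1)
  · exact ((((good_rot 1 1 2 (by norm_num) (by decide) (by norm_num)).or
      (good_rot (-1) 72 2 (by norm_num) (by decide) (by norm_num))).or (good_one 2)).or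
      (good_rot 2 2 2 (by norm_num) (by decide) (by norm_num))).or
      (good_rot (-2) 71 2 (by norm_num) (by decide) (by norm_num))
  · exact ((((((good_rot 1 1 3 (by norm_num) (by decide) (by norm_num)).or
      (good_rot (-1) 72 3 (by norm_num) (by decide) (by norm_num))).or (good_one 3)).or
      (good_rot 2 2 3 (by norm_num) (by decide) (by norm_num))).or
      (good_rot (-2) 71 3 (by norm_num) (by decide) (by norm_num))).or
      (good_rot 3 3 3 (by norm_num) (by decide) (by norm_num))).or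
      (good_rot (-3) 70 3 (by norm_num) (by decide) (by norm_num))
  · intro x hx
    rw [Finset.mem_erase] at hx
    have hx0 : x ≠ 0 := fun h => h0T (h ▸ hx.2)
    have hx36 : x ≤ 36 := by
      obtain ⟨y, -, rfl⟩ := Finset.mem_image.mp hx.2
      exact hf36 y
    rw [List.mem_range'_1]
    omega
  · rw [Finset.card_erase_of_mem h1T, hT]
  · intro x hx
    rw [Finset.mem_erase] at hx
    rw [Finset.mem_singleton]
    intro he
    have hx36 : x ≤ 36 := by
      obtain ⟨y, -, rfl⟩ := Finset.mem_image.mp hx.2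
      exact hf36 y
    have he' : ((x : ℕ) : ZMod 73) = ((1 : ℕ) : ZMod 73) := by rw [he]; simp
    rw [ZMod.natCast_eq_natCast_iff'] at he'
    rw [Nat.mod_eq_of_lt (by omega), Nat.mod_eq_of_lt (by omega)] at he'
    exact hx.1 he'

theorem key69 : ∀ x y z w v : Fin 9,
    ((x : ℕ) + 4 * (y : ℕ) + 13 * (z : ℕ) + 19 * (w : ℕ) + 29 * (v : ℕ)) % 69 = 264 % 69 →
    (((x : ℕ) - 4 + (4 - (x : ℕ))) + ((y : ℕ) - 4 + (4 - (y : ℕ))) +
      ((z : ℕ) - 4 + (4 - (z : ℕ))) + ((w : ℕ) - 4 + (4 - (w : ℕ))) +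
      ((v : ℕ) - 4 + (4 - (v : ℕ))) = 0 ∨
    4 < ((x : ℕ) - 4 + (4 - (x : ℕ))) + ((y : ℕ) - 4 + (4 - (y : ℕ))) +
      ((z : ℕ) - 4 + (4 - (z : ℕ))) + ((w : ℕ) - 4 + (4 - (w : ℕ))) +
      ((v : ℕ) - 4 + (4 - (v : ℕ)))) := by
  decide +kernel

/-- Relations on `{1, 4, 13, 19, 29}` in `ℤ_69`: none of weight between `1` and `4`. -/
theorem sixtynine : 5 ≤ tauPM (ZMod 69) 4 := by
  have h : TIndep 4 ({1, 4, 13, 19, 29} : Finset (ZMod 69)) := by
    rw [tIndep_iff]
    intro c h1 h2 h3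
    rw [Finset.sum_insert (by decide), Finset.sum_insert (by decide),
      Finset.sum_insert (by decide), Finset.sum_insert (by decide), Finset.sum_singleton] at h1 h2 h3
    have hfin : ∀ t : ℤ, t.natAbs ≤ 4 → ∃ x : Fin 9, ((x : ℕ) : ℤ) = t + 4 := by
      intro t ht
      refine ⟨⟨(t + 4).toNat, by omega⟩, ?_⟩
      simp only
      omega
    obtain ⟨x, hx⟩ := hfin (c 1) (by omega)
    obtain ⟨y, hy⟩ := hfin (c 4) (by omega)
    obtain ⟨z, hz⟩ := hfin (c 13) (by omega)
    obtain ⟨w, hw⟩ := hfin (c 19) (by omega)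
    obtain ⟨v, hv⟩ := hfin (c 29) (by omega)
    have hcast : (((c 1) * 1 + (c 4) * 4 + (c 13) * 13 + (c 19) * 19 + (c 29) * 29 : ℤ) : ZMod 69)
        = 0 := by
      simp only [zsmul_eq_mul] at h3
      push_cast
      linear_combination h3
    rw [ZMod.intCast_zmod_eq_zero_iff_dvd] at hcast
    obtain ⟨q, hq⟩ := hcast
    have e1 : (x : ℕ) - 4 + (4 - (x : ℕ)) = (c 1).natAbs := by clear hq h1 h2; omega
    have e2 : (y : ℕ) - 4 + (4 - (y : ℕ)) = (c 4).natAbs := by clear hq h1 h2; omega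
    have e3 : (z : ℕ) - 4 + (4 - (z : ℕ)) = (c 13).natAbs := by clear hq h1 h2; omega
    have e4 : (w : ℕ) - 4 + (4 - (w : ℕ)) = (c 19).natAbs := by clear hq h1 h2; omega
    have e5 : (v : ℕ) - 4 + (4 - (v : ℕ)) = (c 29).natAbs := by clear hq h1 h2; omega
    have hm : ((x : ℕ) + 4 * (y : ℕ) + 13 * (z : ℕ) + 19 * (w : ℕ) + 29 * (v : ℕ)) % 69
        = 264 % 69 := by
      clear e1 e2 e3 e4 e5 h1 h2
      omega
    have h4 := key69 x y z w v hm
    rw [e1, e2, e3, e4, e5] at h4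
    clear hq hm e1 e2 e3 e4 e5 hx hy hz hw hv
    omega
  have := le_tauPM h
  have hc : ({1, 4, 13, 19, 29} : Finset (ZMod 69)).card = 5 := by decide
  omega

/-- For `t = 4`, the sequence `τ±(ℤ_n, [1, t])`, over the odd `n = 2 k + 1`, is neither
non-decreasing nor non-increasing. -/
theorem result : ¬ Monotone (fun k : ℕ => tauPM (ZMod (2 * k + 1)) 4) ∧
    ¬ Antitone (fun k : ℕ => tauPM (ZMod (2 * k + 1)) 4) := by
  constructor
  · intro h
    have h1 : tauPM (ZMod 69) 4 ≤ tauPM (ZMod 73) 4 := h (show 34 ≤ 36 by norm_num)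
    have := sixtynine
    have := seventythree
    omega
  · intro h
    have h1 : tauPM (ZMod 69) 4 ≤ tauPM (ZMod 1) 4 := h (show 0 ≤ 34 by norm_num)
    have := sixtynine
    have := one
    omega

end Pool.Agent.Results.MP_3bc6ef_co.NotMonotone
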